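import Pool.Agent.helper38.Neg.Nondet

namespace Pool.Agent.helper55.Reserve.NegationLimited

open Pool.Agent.helper38.Neg

/-- A language in `NP/Poly` with monotone slices that has no small circuits with few NOT gates.
If a circuit with `s` gates computes the slice of length `n` and has `r` NOT gates with
`2 ^ r ≤ K`, or has any number of NOT gates but takes at most `K` different NOT-vectors along
every increasing sequence of inputs, then `s + 2 ≥ 2 ^ (c (n / (K log n)) ^ (1/4))`. -/
theorem result :
    ∃ A : Lang, InNPPoly A ∧ (∀ n, Monotone (A n)) ∧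
      ∃ c : ℝ, 0 < c ∧ ∀ n s K : ℕ, 2 ≤ n → ∀ (C : Circuit n s) (o : Fin (n + s)),
        C.Computes o (A n) → (2 ^ C.notCount ≤ K ∨ C.PatternsLE K) →
          (2 : ℝ) ^ (c * ((n : ℝ) / (K * Real.log n)) ^ ((1 : ℝ) / 4)) ≤ s + 2 :=
  ⟨lang, lang_inNPPoly, lang_mono, 1 / 64, by norm_num, fun _ _ _ hn C o hC h =>
    size_bound hn C o hC h⟩

end Pool.Agent.helper55.Reserve.NegationLimited
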