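import Pool.Agent.helper65.Delta.Prod

/-!
# Products of `Δ`-spaces with one `σ`-finite factor

The product of a `Δ`-space `X` with a space `Y` carrying countably many open neighbourhood
assignments, the `N`-th one point-finite on the `N`-th member of an increasing cover of `Y`, is a
`Δ`-space. Scattered Eberlein compact spaces (compact sets of functions with finite support) are
such `Y`, and the class is stable under adding a countable open set, so that it contains for example
the one-point compactifications of the Mrowka-Isbell spaces.
-/

open Set

namespace Pool.Agent.Results.MP_055c40_gt.SigmaFiniteFactor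

open Pool.Agent.helper65.Delta

theorem result :
    (∀ (X Y : Type) [TopologicalSpace X] [TopologicalSpace Y],
      IsDelta X → IsSigmaFinite Y → IsDelta (X × Y)) ∧
    (∀ (κ : Type) (K : Set (κ → Bool)), (∀ f ∈ K, {i | f i = true}.Finite) → IsSigmaFinite K) ∧
    (∀ (Y : Type) [TopologicalSpace Y] [T1Space Y] (O : Set Y),
      IsOpen O → O.Countable → IsSigmaFinite ↥Oᶜ → IsSigmaFinite Y) :=
  ⟨fun _ _ _ _ hX hY => hX.prod hY, fun _ K hK => isSigmaFinite_finite_support K hK,
    fun _ _ _ O hO hc h => isSigmaFinite_of_countable O hO hc h⟩

end Pool.Agent.Results.MP_055c40_gt.SigmaFiniteFactor
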